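import Pool.Agent.R115.Lk.Main

/-!
# A pair which is linked in dimension `d + 1` is globally linked in dimension `d`

The proof uses derivations of the field of real numbers. Let `p` be generic in dimension `d`, let
`q` be equivalent to `p`, and let `uv` be linked in dimension `d + 1`.
(1) Every infinitesimal length change `(p x - p y) • (w x - w y)` of the edges at `p` is an
infinitesimal length change at `q`: apply a derivation `D` with `D p = w` to the equations
`|p x - p y|² = |q x - q y|²`.
(2) For `z : V → ℝ` such that `(p, z)` is generic in dimension `d + 1`, the rigidity matrix of the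
edges at `(q, z)` has by (1) at least the rank it has at `(p, z)`, so the row of `uv` is still in the
span of the rows of the edges at `(q, z)`.
(3) For the coordinate `pᵏ` of `p` the vector `(pᵏ x - pᵏ y) (z x - z y)` is, on the edges, a length
change at `p`, hence at `q` by a velocity `w'`. The velocity `(w', -pᵏ)` at `(q, z)` preserves the
edges, hence by (2) also `uv`. So the vector is a length change at `q` on the edges and `uv`.
(4) By linearity this holds for all `z`, in particular for `z = pᵏ`. Summing over `k`, the squared
lengths of `p`, and trivially those of `q`, are length changes at `q` on the edges and `uv`. They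
agree on the edges, so by (2) they agree on `uv`.
-/

set_option autoImplicit false

namespace Pool.Agent.Results.MP_32f1bc_co.LinkedGloballyLinked

open Pool.Agent.R115.Lk

/-- A realization `p` of a graph on the vertex set `V` in `ℝ^d` is generic if the coordinates of the
points `p v` are algebraically independent over `ℚ`. -/
def Generic {V : Type} {d : ℕ} (p : V → EuclideanSpace ℝ (Fin d)) : Prop :=
  AlgebraicIndependent ℚ (fun c : V × Fin d => p c.1 c.2)

/-- The realizations `p` and `q` of `G` are equivalent: all edges of `G` have the same length. -/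
def Equivalent {V : Type} {d : ℕ} (G : SimpleGraph V) (p q : V → EuclideanSpace ℝ (Fin d)) : Prop :=
  ∀ x y, G.Adj x y → dist (p x) (p y) = dist (q x) (q y)

open Classical in
/-- The row of the pair `xy` of the rigidity matrix: `p x - p y` in the `d` columns of `x`,
`p y - p x` in those of `y`, and zeros elsewhere. -/
noncomputable def rigidityRow {V : Type} {d : ℕ} (p : V → EuclideanSpace ℝ (Fin d)) (x y : V) :
    V × Fin d → ℝ :=
  fun c => if c.1 = x then p x c.2 - p y c.2 else if c.1 = y then p y c.2 - p x c.2 else 0

/-- The rank of the set of rows of the edges of `G` in the rigidity matrix at `p`. For generic `p`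
this is the rank of the edge set of `G` in the generic `d`-dimensional rigidity matroid. -/
noncomputable def rigidityRank {V : Type} {d : ℕ} (G : SimpleGraph V)
    (p : V → EuclideanSpace ℝ (Fin d)) : ℕ :=
  Module.finrank ℝ (Submodule.span ℝ {r : V × Fin d → ℝ | ∃ x y, G.Adj x y ∧ r = rigidityRow p x y})

/-- The pair `uv` is linked in `G` in `ℝ^d`: adding the edge `uv` to `G` does not raise the rank, at
some generic realization. (By `linked_iff` below this does not depend on the generic realization.) -/
def Linked {V : Type} (d : ℕ) (G : SimpleGraph V) (u v : V) : Prop :=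
  ∃ p : V → EuclideanSpace ℝ (Fin d), Generic p ∧
    rigidityRank (G ⊔ SimpleGraph.edge u v) p = rigidityRank G p

/-- The pair `uv` is globally linked in `G` in `ℝ^d`: for every generic realization `p` of `G` in
`ℝ^d` and every equivalent realization `q` in `ℝ^d` the distance of `u` and `v` is the same. -/
def GloballyLinked {V : Type} (d : ℕ) (G : SimpleGraph V) (u v : V) : Prop :=
  ∀ p q : V → EuclideanSpace ℝ (Fin d), Generic p → Equivalent G p q →
    dist (p u) (p v) = dist (q u) (q v)

section aux

open Classical

variable {V : Type} [Fintype V] {d : ℕ}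

omit [Fintype V] in
theorem row_eq (p : V → EuclideanSpace ℝ (Fin d)) (x y : V) :
    rigidityRow p x y = row (fun v k => p v k) (x, y) := rfl

omit [Fintype V] in
/-- the set of rows of a graph -/
theorem rows_eq (G : SimpleGraph V) (p : V → EuclideanSpace ℝ (Fin d)) :
    {r : V × Fin d → ℝ | ∃ x y, G.Adj x y ∧ r = rigidityRow p x y} =
      row (fun v k => p v k) '' {e : V × V | G.Adj e.1 e.2} := by
  ext r
  constructor
  · rintro ⟨x, y, h, rfl⟩
    exact ⟨(x, y), h, rfl⟩
  · rintro ⟨e, h, rfl⟩
    exact ⟨e.1, e.2, h, rfl⟩

/-- the rank at a generic placement is at least the rank at any placement -/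
theorem finrank_le {P Q : V → Fin d → ℝ} (hP : Gen P) (E : Set (V × V)) :
    Module.finrank ℝ (Submodule.span ℝ (row Q '' E)) ≤
      Module.finrank ℝ (Submodule.span ℝ (row P '' E)) := by
  obtain ⟨κ, a, hinj, hspan, hind⟩ := exists_linearIndependent' ℝ (fun e : E => row Q e.1)
  have hfin : Finite κ := Finite.of_injective a hinj
  have := Fintype.ofFinite κ
  have h1 : LinearIndependent ℝ (fun i => row P (a i).1) :=
    ind_gen (f := fun i => (a i).1) (p := Q) hind hP
  have h2 : Submodule.span ℝ (row Q '' E) = Submodule.span ℝ (Set.range fun i => row Q (a i).1) := by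
    rw [Set.image_eq_range]
    exact hspan.symm
  have h3 : Submodule.span ℝ (Set.range fun i => row P (a i).1) ≤
      Submodule.span ℝ (row P '' E) := by
    apply Submodule.span_mono
    rintro _ ⟨i, rfl⟩
    exact ⟨(a i).1, (a i).2, rfl⟩
  rw [h2, finrank_span_eq_card (b := fun i => row Q (a i).1) hind,
    ← finrank_span_eq_card h1]
  exact Submodule.finrank_mono h3

theorem rank_eq {p q : V → EuclideanSpace ℝ (Fin d)} (hp : Generic p) (hq : Generic q)
    (G : SimpleGraph V) : rigidityRank G p = rigidityRank G q := by
  unfold rigidityRank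
  rw [rows_eq, rows_eq]
  exact le_antisymm
    (finrank_le (P := fun v k => q v k) (Q := fun v k => p v k) hq {e : V × V | G.Adj e.1 e.2})
    (finrank_le (P := fun v k => p v k) (Q := fun v k => q v k) hp {e : V × V | G.Adj e.1 e.2})

/-- Sanity check: generic realizations exist. -/
theorem exists_generic (V : Type) [Fintype V] (d : ℕ) :
    ∃ p : V → EuclideanSpace ℝ (Fin d), Generic p := by
  let z : Empty → ℝ := fun i => i.elim
  have h0 : AlgebraicIndependent ℚ z := algebraicIndependent_empty_type
  obtain ⟨y, hy, -⟩ := exists_extend (σ := V × Fin d) (p := z) h0 (fun _ => 0)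
  have h1 : AlgebraicIndependent ℚ y := by
    have h2 := hy.comp Sum.inl Sum.inl_injective
    have h3 : Sum.elim y z ∘ Sum.inl = y := rfl
    rw [h3] at h2
    exact h2
  exact ⟨fun v => WithLp.toLp 2 (fun k => y (v, k)), h1⟩

/-- Sanity check: being linked does not depend on the generic realization. -/
theorem linked_iff (G : SimpleGraph V) (u v : V) :
    Linked d G u v ↔ ∀ p : V → EuclideanSpace ℝ (Fin d), Generic p →
      rigidityRank (G ⊔ SimpleGraph.edge u v) p = rigidityRank G p := by
  constructor
  · rintro ⟨p, hp, h⟩ q hq
    rw [rank_eq hq hp, rank_eq hq hp G, h]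
  · intro h
    obtain ⟨p, hp⟩ := exists_generic V d
    exact ⟨p, hp, h p hp⟩

omit [Fintype V] in
theorem dist_iff (p q : V → EuclideanSpace ℝ (Fin d)) (x y : V) :
    dist (p x) (p y) = dist (q x) (q y) ↔
      S (fun v k => p v k) (fun v k => p v k) x y = S (fun v k => q v k) (fun v k => q v k) x y := by
  have h : ∀ r : V → EuclideanSpace ℝ (Fin d), dist (r x) (r y) ^ 2 =
      S (fun v k => r v k) (fun v k => r v k) x y := by
    intro r
    rw [EuclideanSpace.dist_eq, Real.sq_sqrt (Finset.sum_nonneg fun _ _ => sq_nonneg _)]
    unfold S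
    apply Finset.sum_congr rfl
    intro k _
    rw [Real.dist_eq, sq_abs]
    ring
  rw [← h, ← h, sq_eq_sq₀ dist_nonneg dist_nonneg]

end aux

/-- **Main theorem.** Let `G` be a finite graph, `u` and `v` vertices and `d` a dimension. If the
pair `uv` is linked in `G` in `ℝ^(d+1)`, then it is globally linked in `G` in `ℝ^d`. -/
theorem result (d : ℕ) (V : Type) [Fintype V] (G : SimpleGraph V) (u v : V)
    (h : Linked (d + 1) G u v) : GloballyLinked d G u v := by
  classical
  intro p q hp hpq
  rcases eq_or_ne u v with rfl | huv
  · simp
  rw [dist_iff]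
  have hE : ∀ e ∈ {e : V × V | G.Adj e.1 e.2}, S (fun v k => p v k) (fun v k => p v k) e.1 e.2 =
      S (fun v k => q v k) (fun v k => q v k) e.1 e.2 := by
    intro e he
    rw [← dist_iff]
    exact hpq _ _ he
  refine main (p := fun v k => p v k) (q := fun v k => q v k) hp hE ?_
  intro P hP
  have h1 := (linked_iff G u v).1 h (fun v => WithLp.toLp 2 (P v)) hP
  unfold rigidityRank at h1
  rw [rows_eq, rows_eq] at h1
  have h2 : Submodule.span ℝ (row P '' {e : V × V | G.Adj e.1 e.2}) ≤
      Submodule.span ℝ (row P '' {e : V × V | (G ⊔ SimpleGraph.edge u v).Adj e.1 e.2}) := by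
    apply Submodule.span_mono
    apply Set.image_mono
    intro e he
    exact Or.inl he
  have h3 := Submodule.eq_of_le_of_finrank_eq h2 h1.symm
  rw [h3]
  apply Submodule.subset_span
  refine ⟨(u, v), ?_, rfl⟩
  show (G ⊔ SimpleGraph.edge u v).Adj u v
  rw [SimpleGraph.sup_adj, SimpleGraph.edge_adj]
  exact Or.inr ⟨Or.inl ⟨rfl, rfl⟩, huv⟩

end Pool.Agent.Results.MP_32f1bc_co.LinkedGloballyLinked
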